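import Mathlib
import Pool.Agent.Helper57.NS.Defs
import Pool.Agent.Helper57.NS.St.N14

set_option autoImplicit false

/-!
Project NS, piece N15: iterated halving.
-/

namespace Pool.Agent.Helper4.NS

open scoped BigOperators RealInnerProductSpace
open Pool.Agent.Helper57.NS

/-- The numerical part of one halving step. -/
theorem step_num (S q n : ℕ) (hq : 0 < q) (hqn : q ≤ n) (C0 : ℝ) (hC0 : 1 ≤ C0) (η τ : ℝ)
    (hη : η = (5 / 6) ^ (S + 1) / 50)
    (hτ : τ = η ^ 2 / (324 * C0 ^ 2 * Real.log (4 * (2 ^ S * q : ℕ)))) :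
    0 < η ∧ 0 < τ ∧
    18 * (C0 * √(τ * Real.log (4 * (2 ^ S * q : ℕ)))) = η ∧
    2 * (9 * √(Real.log (2 * n) / τ) / (2 ^ S * q : ℕ)) ≤
      200000 * (4 / 5) ^ S * C0 * Real.log (2 * n) / q := by
  have hq' : (1 : ℝ) ≤ q := by exact_mod_cast hq
  have hqn' : (q : ℝ) ≤ n := by exact_mod_cast hqn
  have hn' : (1 : ℝ) ≤ n := hq'.trans hqn'
  have h2S : (1 : ℝ) ≤ 2 ^ S := one_le_pow₀ (by norm_num)
  have hη0 : 0 < η := by rw [hη]; positivity
  set N : ℝ := ((2 ^ S * q : ℕ) : ℝ) with hN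
  have hNe : N = 2 ^ S * q := by rw [hN]; push_cast; ring
  have hN1 : 1 ≤ N := by
    rw [hNe]
    nlinarith
  set G := Real.log (4 * N) with hG
  have hG0 : 0 < G := Real.log_pos (by linarith)
  set L := Real.log (2 * n) with hL
  have hlog2 : 0 < Real.log 2 := Real.log_pos (by norm_num)
  have hL2 : Real.log 2 ≤ L := Real.log_le_log (by norm_num) (by linarith)
  have hL0 : 0 < L := hlog2.trans_le hL2
  have hC : 0 < C0 := by linarith
  have hτ0 : 0 < τ := by rw [hτ]; positivity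
  have e1 : √(τ * G) = η / (18 * C0) := by
    rw [Real.sqrt_eq_iff_mul_self_eq (by positivity) (by positivity), hτ]
    field_simp
    norm_num
  refine ⟨hη0, hτ0, ?_, ?_⟩
  · rw [e1]
    field_simp
  · have hGL : G ≤ (S + 2) * L := by
      have h1 : (4 : ℝ) * N = 2 ^ (S + 1) * (2 * q) := by
        rw [hNe]; ring
      rw [hG, h1, Real.log_mul (by positivity) (by positivity), Real.log_pow]
      have h2 : Real.log (2 * q) ≤ L := Real.log_le_log (by positivity) (by linarith)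
      push_cast
      nlinarith
    have hS2 : ((S : ℝ) + 2) ≤ 4 * (16 / 9) ^ S := by
      clear hη hτ hη0 hτ0 h2S hN hNe hN1 hG hG0 e1 hGL
      induction S with
      | zero => norm_num
      | succ S ih =>
        push_cast
        rw [pow_succ]
        have : (0 : ℝ) ≤ S := Nat.cast_nonneg S
        nlinarith
    have e2 : √(L / τ) = 18 * C0 * √(L * G) / η := by
      rw [Real.sqrt_eq_iff_mul_self_eq (by positivity) (by positivity), hτ]
      have h3 : √(L * G) * √(L * G) = L * G := Real.mul_self_sqrt (by positivity)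
      have h4 : 18 * C0 * √(L * G) / η * (18 * C0 * √(L * G) / η) =
          324 * C0 ^ 2 * (√(L * G) * √(L * G)) / η ^ 2 := by
        field_simp
        norm_num
      rw [h4, h3]
      field_simp
    have e3 : √(L * G) ≤ L * (2 * (4 / 3) ^ S) := by
      rw [Real.sqrt_le_left (by positivity)]
      have h5 : (L * (2 * (4 / 3) ^ S)) ^ 2 = L * (L * (4 * (16 / 9) ^ S)) := by
        rw [mul_pow, mul_pow, ← pow_mul, mul_comm S 2, pow_mul]
        norm_num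
        ring
      rw [h5]
      apply mul_le_mul_of_nonneg_left _ hL0.le
      calc G ≤ (S + 2) * L := hGL
        _ ≤ (4 * (16 / 9) ^ S) * L := mul_le_mul_of_nonneg_right hS2 hL0.le
        _ = L * (4 * (16 / 9) ^ S) := by ring
    rw [e2, hNe]
    have e4 : 2 * (9 * (18 * C0 * √(L * G) / η) / (2 ^ S * q)) =
        324 * C0 / (η * 2 ^ S * q) * √(L * G) := by
      field_simp
      ring
    rw [e4]
    have e5 : 324 * C0 / (η * 2 ^ S * q) * √(L * G) ≤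
        324 * C0 / (η * 2 ^ S * q) * (L * (2 * (4 / 3) ^ S)) :=
      mul_le_mul_of_nonneg_left e3 (by positivity)
    refine e5.trans ?_
    have e6 : 324 * C0 / (η * 2 ^ S * q) * (L * (2 * (4 / 3) ^ S)) =
        38880 * (4 / 5) ^ S * C0 * L / q := by
      rw [hη]
      have h6 : (4 / 5 : ℝ) ^ S = (4 / 3) ^ S / ((5 / 6) ^ S * 2 ^ S) := by
        rw [← mul_pow, ← div_pow]
        norm_num
      rw [h6, pow_succ]
      field_simp
      norm_num
    rw [e6]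
    gcongr
    norm_num

theorem iter_aux {d n q : ℕ} (hq : 0 < q) (hqn : q ≤ n) (t : Fin n → Eu d) (ht : Spn t) (C0 : ℝ)
    (hC0 : 1 ≤ C0) {I : Type} (u : I → Eu d)
    (hu : ∀ i (y : Eu d), ⟪u i, y⟫ ^ 2 ≤ C0 ^ 2 * ∑ k, ⟪t k, y⟫ ^ 2) (S : ℕ) :
    ∀ m : ℕ, m = 2 ^ S * q → ∀ g : Fin m → I,
    ∃ g' : Fin q → I, ∀ y : Eu d,
      (1 - (1 - (5 / 6) ^ S) / 10) * ((∑ l, |⟪u (g l), y⟫|) / m) -
          1000000 * (1 - (4 / 5) ^ S) * C0 * Real.log (2 * n) / q * ∑ k, |⟪t k, y⟫| ≤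
        (∑ l, |⟪u (g' l), y⟫|) / q ∧
      |(∑ l, ⟪u (g' l), y⟫) / q - (∑ l, ⟪u (g l), y⟫) / m| ≤
        (3 / 2) * ((1 - (5 / 6) ^ S) / 10) * ((∑ l, |⟪u (g l), y⟫|) / m) +
          1000000 * (1 - (4 / 5) ^ S) * C0 * Real.log (2 * n) / q * ∑ k, |⟪t k, y⟫| := by
  induction S with
  | zero =>
    intro m hm g
    rw [pow_zero, one_mul] at hm
    subst hm
    refine ⟨g, fun y => ⟨?_, ?_⟩⟩
    · simp
    · simp
  | succ S ih =>
    intro m hm g
    obtain ⟨N, hN⟩ : ∃ N, N = 2 ^ S * q := ⟨_, rfl⟩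
    have hmN : m = N + N := by rw [hm, hN, pow_succ]; ring
    clear hm
    subst hmN
    have hN0 : 0 < N := by rw [hN]; positivity
    obtain ⟨η, hη⟩ : ∃ η : ℝ, η = (5 / 6) ^ (S + 1) / 50 := ⟨_, rfl⟩
    obtain ⟨τ, hτ⟩ : ∃ τ : ℝ, τ = η ^ 2 / (324 * C0 ^ 2 * Real.log (4 * (2 ^ S * q : ℕ))) :=
      ⟨_, rfl⟩
    obtain ⟨hη0, hτ0, hs1, hs2⟩ := step_num S q n hq hqn C0 hC0 η τ hη hτ
    rw [← hN] at hs1 hs2
    obtain ⟨c, hc⟩ := halving hN0 t ht C0 hC0 (fun l => u (g (Fin.castAdd N l)))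
      (fun l => u (g (Fin.natAdd N l))) (fun l y => hu _ y) (fun l y => hu _ y) τ hτ0
    obtain ⟨g', hg'⟩ := ih N hN (fun l => if c l then g (Fin.castAdd N l) else g (Fin.natAdd N l))
    refine ⟨g', fun y => ?_⟩
    obtain ⟨h1, h2⟩ := hc y
    obtain ⟨h3, h4⟩ := hg' y
    have hite : ∀ l, u (if c l then g (Fin.castAdd N l) else g (Fin.natAdd N l)) =
        if c l then u (g (Fin.castAdd N l)) else u (g (Fin.natAdd N l)) := fun l => by
      split_ifs <;> rfl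
    simp only [hite] at h3 h4
    have hN' : (0 : ℝ) < N := by exact_mod_cast hN0
    have hq' : (0 : ℝ) < q := by exact_mod_cast hq
    obtain ⟨Y, hY⟩ : ∃ Y, Y = ∑ k, |⟪t k, y⟫| := ⟨_, rfl⟩
    have hY0 : 0 ≤ Y := by rw [hY]; exact Finset.sum_nonneg fun _ _ => abs_nonneg _
    obtain ⟨B, hB⟩ : ∃ B, B = ∑ l, |⟪if c l then u (g (Fin.castAdd N l)) else
      u (g (Fin.natAdd N l)), y⟫| := ⟨_, rfl⟩
    obtain ⟨B', hB'⟩ : ∃ B', B' = ∑ l, ⟪if c l then u (g (Fin.castAdd N l)) else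
      u (g (Fin.natAdd N l)), y⟫ := ⟨_, rfl⟩
    obtain ⟨Z, hZ⟩ : ∃ Z, Z = ∑ l, |⟪u (g l), y⟫| := ⟨_, rfl⟩
    obtain ⟨Z', hZ'⟩ : ∃ Z', Z' = ∑ l, ⟪u (g l), y⟫ := ⟨_, rfl⟩
    have hZs : ∑ l, (|⟪u (g (Fin.castAdd N l)), y⟫| + |⟪u (g (Fin.natAdd N l)), y⟫|) = Z := by
      rw [hZ, Fin.sum_univ_add, Finset.sum_add_distrib]
    have hZs' : ∑ l, (⟪u (g (Fin.castAdd N l)), y⟫ + ⟪u (g (Fin.natAdd N l)), y⟫) = Z' := by
      rw [hZ', Fin.sum_univ_add, Finset.sum_add_distrib]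
    have hZ0 : 0 ≤ Z := by rw [hZ]; exact Finset.sum_nonneg fun _ _ => abs_nonneg _
    rw [← hB, ← hY] at h3
    rw [← hB, ← hB', ← hY] at h4
    rw [hZs, ← hB, ← hY] at h1
    rw [hZs', hZs, ← hB', ← hY] at h2
    rw [← hZ, ← hZ', ← hY]
    push_cast
    -- abbreviations
    obtain ⟨W, hW⟩ : ∃ W, W = √(Real.log (2 * n) / τ) := ⟨_, rfl⟩
    have hW0 : 0 ≤ W := by rw [hW]; positivity
    obtain ⟨V, hV⟩ : ∃ V, V = C0 * √(τ * Real.log (4 * N)) := ⟨_, rfl⟩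
    rw [← hW, ← hV] at h1 h2
    rw [← hV] at hs1
    rw [← hW] at hs2
    obtain ⟨A, hA⟩ : ∃ A, A = Z / (N + N) := ⟨_, rfl⟩
    have hA0 : 0 ≤ A := by rw [hA]; positivity
    obtain ⟨E, hE⟩ : ∃ E, E = 9 * W / N * Y + η * A := ⟨_, rfl⟩
    have hEe : 9 * (W * Y + V * Z) / N = E := by
      rw [hE, hA, ← hs1]
      field_simp
      ring
    have k1 : |B / N - A| ≤ E := by
      have : B / N - A = (B - 1 / 2 * Z) / N := by
        rw [hA]; field_simp; ring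
      rw [this, abs_div, abs_of_pos hN', ← hEe]
      exact div_le_div_of_nonneg_right h1 hN'.le
    have k2 : |B' / N - Z' / (N + N)| ≤ E := by
      have : B' / N - Z' / (N + N) = (B' - 1 / 2 * Z') / N := by
        field_simp; ring
      rw [this, abs_div, abs_of_pos hN', ← hEe]
      exact div_le_div_of_nonneg_right h2 hN'.le
    rw [← hA]
    obtain ⟨K, hK⟩ : ∃ K, K = 1000000 * C0 * Real.log (2 * n) / q := ⟨_, rfl⟩
    obtain ⟨p, hp⟩ : ∃ p : ℝ, p = (5 / 6) ^ S := ⟨_, rfl⟩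
    obtain ⟨r, hr⟩ : ∃ r : ℝ, r = (4 / 5) ^ S := ⟨_, rfl⟩
    have hp0 : 0 ≤ p := by rw [hp]; positivity
    have hp1 : p ≤ 1 := by rw [hp]; exact pow_le_one₀ (by norm_num) (by norm_num)
    have hηp : η = p / 60 := by rw [hη, hp, pow_succ]; ring
    have hK1 : 1000000 * (1 - (4 / 5) ^ S) * C0 * Real.log (2 * n) / q = K * (1 - r) := by
      rw [hK, hr]; ring
    have hK2 : 1000000 * (1 - (4 / 5) ^ (S + 1)) * C0 * Real.log (2 * n) / q =
        K * (1 - 4 / 5 * r) := by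
      rw [hK, hr, pow_succ]; ring
    have hK3 : 200000 * (4 / 5) ^ S * C0 * Real.log (2 * n) / q = K * r / 5 := by
      rw [hK, hr]; ring
    rw [hK1, ← hp] at h3 h4
    rw [hK3] at hs2
    rw [hK2, pow_succ, ← hp]
    obtain ⟨w, hw⟩ : ∃ w, w = 9 * W / N := ⟨_, rfl⟩
    rw [← hw] at hs2 hE
    have hw0 : 0 ≤ w := by rw [hw]; positivity
    have hwY : 2 * (w * Y) ≤ K * r / 5 * Y := by nlinarith
    have hwY0 : 0 ≤ w * Y := mul_nonneg hw0 hY0
    obtain ⟨k1a, k1b⟩ := abs_le.1 k1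
    constructor
    · have m1 : (1 - (1 - p) / 10) * (A - E) ≤ (1 - (1 - p) / 10) * (B / N) :=
        mul_le_mul_of_nonneg_left (by linarith) (by linarith)
      have m2 : (1 - (1 - p * (5 / 6)) / 10) * A - w * Y ≤ (1 - (1 - p) / 10) * (A - E) := by
        have e : (1 - (1 - p) / 10) * (A - E) - ((1 - (1 - p * (5 / 6)) / 10) * A - w * Y) =
            (1 - p) * (p * A / 600 + w * Y / 10) := by
          rw [hE, hηp]; ring
        have : 0 ≤ (1 - p) * (p * A / 600 + w * Y / 10) :=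
          mul_nonneg (sub_nonneg.2 hp1) (by positivity)
        linarith
      linarith
    · have m3 : |(∑ l, ⟪u (g' l), y⟫) / q - Z' / (N + N)| ≤
          |(∑ l, ⟪u (g' l), y⟫) / q - B' / N| + |B' / N - Z' / (N + N)| := abs_sub_le _ _ _
      have m4 : (3 / 2) * ((1 - p) / 10) * (B / N) ≤ (3 / 2) * ((1 - p) / 10) * (A + E) :=
        mul_le_mul_of_nonneg_left (by linarith) (by linarith)
      have m5 : (3 / 2) * ((1 - p) / 10) * (A + E) + E ≤
          (3 / 2) * ((1 - p * (5 / 6)) / 10) * A + 2 * (w * Y) := by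
        have e : (3 / 2) * ((1 - p * (5 / 6)) / 10) * A + 2 * (w * Y) -
            ((3 / 2) * ((1 - p) / 10) * (A + E) + E) =
            p * A * (7 / 1200) + p * p * A / 400 + w * Y * (17 / 20) + 3 / 20 * p * (w * Y) := by
          rw [hE, hηp]; ring
        have : 0 ≤ p * A * (7 / 1200) + p * p * A / 400 + w * Y * (17 / 20) +
            3 / 20 * p * (w * Y) := by positivity
        linarith
      have e : K * (1 - r) * Y + K * r / 5 * Y = K * (1 - 4 / 5 * r) * Y := by ring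
      refine m3.trans ((add_le_add h4 k2).trans ?_)
      rw [← e]
      clear h1 h2 h3 h4 k1 k2 hEe hs1 hs2 m3 k1a k1b
      linarith only [m4, m5, hwY]

/-- N15. -/
theorem iterate {d n q : ℕ} (hq : 0 < q) (hqn : q ≤ n) (t : Fin n → Eu d) (ht : Spn t) (C0 : ℝ)
    (hC0 : 1 ≤ C0) {I : Type} (u : I → Eu d)
    (hu : ∀ i (y : Eu d), ⟪u i, y⟫ ^ 2 ≤ C0 ^ 2 * ∑ k, ⟪t k, y⟫ ^ 2) (S : ℕ)
    (g : Fin (2 ^ S * q) → I) :
    ∃ g' : Fin q → I, ∀ y : Eu d,
      (9 / 10) * ((∑ l, |⟪u (g l), y⟫|) / (2 ^ S * q : ℕ)) -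
          1000000 * C0 * Real.log (2 * n) / q * ∑ k, |⟪t k, y⟫| ≤
        (∑ l, |⟪u (g' l), y⟫|) / q ∧
      |(∑ l, ⟪u (g' l), y⟫) / q - (∑ l, ⟪u (g l), y⟫) / (2 ^ S * q : ℕ)| ≤
        (3 / 20) * ((∑ l, |⟪u (g l), y⟫|) / (2 ^ S * q : ℕ)) +
          1000000 * C0 * Real.log (2 * n) / q * ∑ k, |⟪t k, y⟫| := by
  obtain ⟨g', hg'⟩ := iter_aux hq hqn t ht C0 hC0 u hu S _ rfl g
  refine ⟨g', fun y => ?_⟩
  obtain ⟨h1, h2⟩ := hg' y
  have hn' : (1 : ℝ) ≤ n := by exact_mod_cast (show 1 ≤ n by omega)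
  have hL0 : 0 ≤ Real.log (2 * n) := Real.log_nonneg (by linarith)
  have hY0 : 0 ≤ ∑ k, |⟪t k, y⟫| := Finset.sum_nonneg fun _ _ => abs_nonneg _
  have hA0 : 0 ≤ (∑ l, |⟪u (g l), y⟫|) / ((2 ^ S * q : ℕ) : ℝ) :=
    div_nonneg (Finset.sum_nonneg fun _ _ => abs_nonneg _) (Nat.cast_nonneg _)
  have hp0 : (0 : ℝ) ≤ (5 / 6) ^ S := by positivity
  have hr0 : (0 : ℝ) ≤ (4 / 5) ^ S := by positivity
  have hK : 0 ≤ 1000000 * C0 * Real.log (2 * n) / q * ∑ k, |⟪t k, y⟫| := by positivity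
  have e1 : 1000000 * (1 - (4 / 5) ^ S) * C0 * Real.log (2 * n) / q * ∑ k, |⟪t k, y⟫| =
      1000000 * C0 * Real.log (2 * n) / q * (∑ k, |⟪t k, y⟫|) -
      (4 / 5) ^ S * (1000000 * C0 * Real.log (2 * n) / q * ∑ k, |⟪t k, y⟫|) := by ring
  rw [e1] at h1 h2
  have e2 := mul_nonneg hr0 hK
  have e3 := mul_nonneg hp0 hA0
  constructor
  · nlinarith
  · refine h2.trans ?_
    nlinarith

end Pool.Agent.Helper4.NS
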